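import Mathlib
import Pool.Agent.TH119.DS.Lift

/-!
# Representations in characteristic zero satisfying further polynomial conditions
-/

set_option linter.unusedSectionVars false
set_option linter.style.haveILetI false

namespace Pool.Agent.TH119.LG

open MvPolynomial Polynomial
open Pool.Agent.TH119.DS (gen eqs eqs_iff exists_point)

variable {Q : Type} [Group Q] [Finite Q] {n : ℕ}

/-- The evaluation at a representation. -/
noncomputable def ev {G : Type} {n : ℕ} {R B : Type} [CommRing R] [CommRing B] (φ : R →+* B)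
    (r : G → Matrix (Fin n) (Fin n) B) : MvPolynomial (G × Fin n × Fin n) R →+* B :=
  MvPolynomial.eval₂Hom φ fun x => r x.1 x.2.1 x.2.2

/-- **Lifting with further conditions.** -/
theorem exists_rep {R F Ω : Type} [CommRing R] [IsDomain R] [Field F] [Field Ω] [IsAlgClosed Ω]
    [Algebra R F] [IsFractionRing R F] (ι : F →+* Ω) (p : Q → Polynomial R)
    (Z : Set (MvPolynomial (Q × Fin n × Fin n) R))
    {J : Type} (k : J → Type) [∀ j, Field (k j)] (φ : ∀ j, R →+* k j)
    (r : ∀ j, Q →* Matrix.GeneralLinearGroup (Fin n) (k j))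
    (hr : ∀ j q, (r j q : Matrix (Fin n) (Fin n) (k j)).charpoly = (p q).map (φ j))
    (h : ∀ a : R, a ≠ 0 → ∀ T : Finset (MvPolynomial (Q × Fin n × Fin n) R), (↑T : Set _) ⊆ Z →
      ∃ j, φ j a ≠ 0 ∧ ∀ f ∈ T, ev (φ j) (fun q => (r j q : Matrix (Fin n) (Fin n) (k j))) f = 0) :
    ∃ r : Q →* Matrix.GeneralLinearGroup (Fin n) Ω,
      (∀ q, (r q : Matrix (Fin n) (Fin n) Ω).charpoly = (p q).map (ι.comp (algebraMap R F))) ∧
      ∀ f ∈ Z, ev (ι.comp (algebraMap R F)) (fun q => (r q : Matrix (Fin n) (Fin n) Ω)) f = 0 := by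
  classical
  have hgen : ∀ {B : Type} [CommRing B] (ψ : R →+* B) (A : Q → Matrix (Fin n) (Fin n) B) (q : Q),
      (gen n R q).map (ev ψ A) = A q := by
    intro B _ ψ A q
    ext i l
    rw [Matrix.map_apply, gen, Matrix.of_apply]
    exact MvPolynomial.eval₂_X _ _ _
  have hevC : ∀ {B : Type} [CommRing B] (ψ : R →+* B) (A : Q → Matrix (Fin n) (Fin n) B),
      (ev ψ A).comp MvPolynomial.C = ψ := by
    intro B _ ψ A
    refine RingHom.ext fun x => ?_
    exact MvPolynomial.eval₂_C _ _ _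
  obtain ⟨Ψ, h1, h2⟩ := exists_point ι (Ideal.span (eqs (n := n) p ∪ Z)) (by
    intro a ha hmem
    obtain ⟨T, hT, hmem'⟩ := Submodule.mem_span_finite_of_mem_span hmem
    obtain ⟨j, hj, hjT⟩ := h a ha (T.filter fun f => f ∈ Z) (by
      intro f hf
      exact (Finset.mem_filter.1 (Finset.mem_coe.1 hf)).2)
    set Ψ := ev (φ j) (fun q => (r j q : Matrix (Fin n) (Fin n) (k j))) with hΨ
    have hkill : ∀ f ∈ eqs (n := n) p, Ψ f = 0 := by
      rw [eqs_iff]
      refine ⟨fun q q' => ?_, ?_, fun q => ?_⟩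
      · rw [hgen, hgen, hgen, map_mul, Units.val_mul]
      · rw [hgen, map_one, Units.val_one]
      · rw [hgen, hr, hevC]
    have hker : Ideal.span (↑T : Set (MvPolynomial (Q × Fin n × Fin n) R)) ≤ RingHom.ker Ψ := by
      refine Ideal.span_le.2 fun f hf => ?_
      rw [SetLike.mem_coe, RingHom.mem_ker]
      rcases hT hf with h3 | h3
      · exact hkill f h3
      · exact hjT f (Finset.mem_filter.2 ⟨hf, h3⟩)
    have h3 : Ψ (MvPolynomial.C a) = 0 := hker hmem'
    apply hj
    have h4 := congrArg (fun g => g a) (hevC (φ j)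
      (fun q => (r j q : Matrix (Fin n) (Fin n) (k j))))
    change Ψ (MvPolynomial.C a) = φ j a at h4
    rw [← h4, h3])
  have h3 := (eqs_iff (n := n) p Ψ).1 fun f hf => h2 f (Ideal.subset_span (Or.inl hf))
  obtain ⟨h4, h5, h6⟩ := h3
  have hC : Ψ.comp MvPolynomial.C = ι.comp (algebraMap R F) := RingHom.ext h1
  let A : Q →* Matrix (Fin n) (Fin n) Ω :=
    { toFun := fun q => (gen n R q).map Ψ
      map_one' := h5
      map_mul' := h4 }
  refine ⟨A.toHomUnits, fun q => ?_, fun f hf => ?_⟩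
  · rw [MonoidHom.coe_toHomUnits]
    change ((gen n R q).map Ψ).charpoly = _
    rw [h6, hC]
  · have h7 : ev (ι.comp (algebraMap R F))
        (fun q => (A.toHomUnits q : Matrix (Fin n) (Fin n) Ω)) = Ψ := by
      refine MvPolynomial.ringHom_ext ?_ ?_
      · intro x
        rw [h1]
        exact MvPolynomial.eval₂_C _ _ _
      · rintro ⟨q, i, l⟩
        refine (MvPolynomial.eval₂_X _ _ _).trans ?_
        have h8 : (A.toHomUnits q : Matrix (Fin n) (Fin n) Ω) = A q := MonoidHom.coe_toHomUnits _ _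
        exact congrFun (congrFun h8 i) l
    rw [h7]
    exact h2 f (Ideal.subset_span (Or.inr hf))

end Pool.Agent.TH119.LG
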