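import Mathlib
import Pool.Agent.TH119.OP.Main
import Pool.Agent.TH119.LG.Rep

/-!
# From one representation in characteristic zero to all: transfer of polynomial relations
-/

set_option linter.unusedSectionVars false
set_option linter.style.haveILetI false

namespace Pool.Agent.TH119.LG

open NumberField IsDedekindDomain Polynomial Filter Topology
open Pool.Agent.W401.Cheb (GK IsFrob IsInert)
open Pool.Agent.W540.BE (upto nm cheb_mean mem_upto)
open Pool.Agent.TH119.DS (finite_char exists_frob_mem finite_X)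
open Pool.Agent.TH119.OP (SS sp eq_of_mk eq_one finite_image)

variable {K E : Type} [Field K] [NumberField K] [Field E] [NumberField E] {n : ℕ}

theorem one (hn : 0 < n) (P : HeightOneSpectrum (𝓞 K) → (𝓞 E)[X])
    (S : Set (HeightOneSpectrum (𝓞 K))) (hS : S.Finite)
    (k : Type) [Field k] [CharZero k] [TopologicalSpace k]
    [IsTopologicalRing k] [T2Space k] (ι : E →+* k)
    (ρ : GK K →* Matrix.GeneralLinearGroup (Fin n) k)
    (hcont : Continuous fun g => (ρ g : Matrix (Fin n) (Fin n) k))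
    (hss : SS ρ)
    (hfrob : ∀ v ∉ S, ∀ σ, IsFrob v σ → (ρ σ : Matrix (Fin n) (Fin n) k).charpoly =
      (P v).map (ι.comp (algebraMap (𝓞 E) E)))
    (B δ : ℝ) (hδ : 1 - 1 / (n : ℝ) ^ 2 < δ)
    (h : ∃ᶠ N : ℕ in atTop, ∃ T : Finset (HeightOneSpectrum (𝓞 K)),
      (∀ v ∈ T, Ideal.absNorm v.asIdeal ≤ N ∧
        ∀ τ : E →+* ℂ, ‖τ ((P v).coeff (n - 1) : 𝓞 E)‖ ≤ B) ∧
      δ * (upto K N).card ≤ T.card) :
    IsOpen (ρ.ker : Set (GK K)) ∧
    ∀ (Ω : Type) [Field Ω] [IsAlgClosed Ω] (ι' : E →+* Ω),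
      ∃ r : GK K →* Matrix.GeneralLinearGroup (Fin n) Ω, r.ker = ρ.ker ∧
        (∀ v ∉ S, ∀ σ, IsFrob v σ → (r σ : Matrix (Fin n) (Fin n) Ω).charpoly =
          (P v).map (ι'.comp (algebraMap (𝓞 E) E))) ∧
        ∀ f : MvPolynomial (GK K × Fin n × Fin n) (𝓞 E),
          ev (ι.comp (algebraMap (𝓞 E) E)) (fun σ => (ρ σ : Matrix (Fin n) (Fin n) k)) f = 0 →
          ev (ι'.comp (algebraMap (𝓞 E) E)) (fun σ => (r σ : Matrix (Fin n) (Fin n) Ω)) f = 0 := by
  classical
  haveI : Nonempty (Fin n) := ⟨⟨0, hn⟩⟩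
  have hopen : IsOpen (ρ.ker : Set (GK K)) := by
    refine finite_image ρ hcont hss
      ((finite_X (E := E) B).toFinset.image fun a => -(ι.comp (algebraMap (𝓞 E) E)) a)
      S hS {v | ∀ τ : E →+* ℂ, ‖τ ((P v).coeff (n - 1) : 𝓞 E)‖ ≤ B} ?_ δ hδ h
    intro v hv hvS σ hσ
    rw [Matrix.trace_eq_neg_charpoly_coeff, Fintype.card_fin, hfrob v hvS σ hσ,
      Polynomial.coeff_map]
    exact Finset.mem_image_of_mem _ ((finite_X (E := E) B).mem_toFinset.2 hv)
  refine ⟨hopen, fun Ω _ _ ι' => ?_⟩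
  set U := ρ.ker with hU
  haveI : Finite (GK K ⧸ U) := Subgroup.quotient_finite_of_isOpen _ hopen
  have hφinj : Function.Injective (ι.comp (algebraMap (𝓞 E) E)) :=
    ι.injective.comp (FaithfulSMul.algebraMap_injective (𝓞 E) E)
  have hinj : Function.Injective (Polynomial.map (ι.comp (algebraMap (𝓞 E) E))) :=
    Polynomial.map_injective _ hφinj
  have hinj' : Function.Injective (Polynomial.map (ι'.comp (algebraMap (𝓞 E) E))) :=
    Polynomial.map_injective _
      (ι'.injective.comp (FaithfulSMul.algebraMap_injective (𝓞 E) E))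
  have huni : ∀ (k : Type) [Field k] (f : 𝓞 E →+* k),
      ((Polynomial.X - 1 : (𝓞 E)[X]) ^ n).map f = (Polynomial.X - 1) ^ n := by
    intro k _ f
    rw [Polynomial.map_pow, Polynomial.map_sub, Polynomial.map_X, Polynomial.map_one]
  have hex : ∀ q : GK K ⧸ U, ∃ v, v ∉ S ∧ ∃ τ, IsFrob v τ ∧
      (QuotientGroup.mk τ : GK K ⧸ U) = q := by
    intro q
    obtain ⟨σ, rfl⟩ := QuotientGroup.mk_surjective q
    obtain ⟨v, hv, τ, hτ, hτσ⟩ := exists_frob_mem U hopen _ hS σ
    exact ⟨v, hv, τ, hτ, hτσ⟩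
  choose w hwS t ht htq using hex
  have hρw : ∀ σ : GK K, (ρ σ : Matrix (Fin n) (Fin n) k).charpoly =
      (P (w (QuotientGroup.mk σ))).map (ι.comp (algebraMap (𝓞 E) E)) := by
    intro σ
    rw [← hfrob _ (hwS (QuotientGroup.mk σ)) _ (ht _),
      eq_of_mk ρ U le_rfl (htq (QuotientGroup.mk σ))]
  have hPw : ∀ v ∉ S, ∀ σ, IsFrob v σ → P (w (QuotientGroup.mk σ)) = P v := by
    intro v hv σ hσ
    refine hinj ?_
    rw [← hρw, hfrob v hv σ hσ]
  have hren : ∀ {B : Type} [CommRing B] (ψ : 𝓞 E →+* B)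
      (A : GK K ⧸ U → Matrix (Fin n) (Fin n) B)
      (f : MvPolynomial (GK K × Fin n × Fin n) (𝓞 E)),
      ev ψ A (MvPolynomial.rename
        (fun x : GK K × Fin n × Fin n => ((QuotientGroup.mk x.1 : GK K ⧸ U), x.2.1, x.2.2)) f) =
      ev ψ (fun σ => A (QuotientGroup.mk σ)) f := by
    intro B _ ψ A f
    exact MvPolynomial.eval₂_rename _ _ _ _
  obtain ⟨r, hr, hrZ⟩ := exists_rep (Q := GK K ⧸ U) (n := n) ι' (fun q => P (w q))
    {g | ev (ι.comp (algebraMap (𝓞 E) E))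
      (fun q => (QuotientGroup.kerLift ρ q : Matrix (Fin n) (Fin n) k)) g = 0}
    (J := Unit) (fun _ => k) (fun _ => ι.comp (algebraMap (𝓞 E) E))
    (fun _ => QuotientGroup.kerLift ρ) (by
      intro _ q
      obtain ⟨σ, rfl⟩ := QuotientGroup.mk_surjective q
      exact hρw σ) (by
      intro a ha T hT
      refine ⟨(), fun h0 => ha ?_, fun f hf => hT hf⟩
      exact hφinj (h0.trans (map_zero (ι.comp (algebraMap (𝓞 E) E))).symm))
  refine ⟨r.comp (QuotientGroup.mk' U), ?_, ?_, ?_⟩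
  · refine le_antisymm ?_ ?_
    · intro x hx
      rw [MonoidHom.mem_ker, MonoidHom.comp_apply] at hx
      have h1 := hr (QuotientGroup.mk x)
      change r (QuotientGroup.mk x) = 1 at hx
      rw [hx, Units.val_one, Matrix.charpoly_one, Fintype.card_fin,
        ← huni Ω (ι'.comp (algebraMap (𝓞 E) E))] at h1
      have h2 := hinj' h1
      refine MonoidHom.mem_ker.2 (eq_one ρ hopen x ?_)
      rw [hρw, ← h2, huni]
    · intro x hx
      rw [MonoidHom.mem_ker, MonoidHom.comp_apply]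
      have h1 : QuotientGroup.mk' U x = 1 := (QuotientGroup.eq_one_iff x).2 hx
      rw [h1, map_one]
  · intro v hv σ hσ
    rw [MonoidHom.comp_apply]
    change (r (QuotientGroup.mk σ) : Matrix (Fin n) (Fin n) Ω).charpoly = _
    rw [hr, hPw v hv σ hσ]
  · intro f hf
    have h1 := hrZ (MvPolynomial.rename
      (fun x : GK K × Fin n × Fin n => ((QuotientGroup.mk x.1 : GK K ⧸ U), x.2.1, x.2.2)) f) (by
      rw [Set.mem_ofPred_eq, hren]
      exact hf)
    rw [hren] at h1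
    exact h1

end Pool.Agent.TH119.LG
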